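import Mathlib
import Pool.Agent.Lib.H44P.Main

set_option autoImplicit false

namespace Pool.Agent.Results.MP_9ed2bb_lc.UnbalancedColumns

open Cardinal

/-- `Polarized κ ρ β`: whenever `κ × ρ` is coloured with the colours `0, ..., k`, there are a colour `i`, a set `H` of `κ` rows
and a subset of `ρ` of order type `β i` (the range of the order embedding `g`) such that all pairs of `H` times this
subset have the colour `i`. -/
def Polarized (κ ρ : Cardinal.{0}) {k : ℕ} (β : Fin (k + 1) → Ordinal.{0}) : Prop :=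
  ∀ f : κ.ord.ToType → ρ.ord.ToType → Fin (k + 1), ∃ i : Fin (k + 1), ∃ H : Set κ.ord.ToType, #H = κ ∧
    ∃ g : (β i).ToType ↪o ρ.ord.ToType, ∀ a ∈ H, ∀ x, f a (g x) = i

/-- For every regular `κ`, with `ρ = (κ ^< κ)⁺` (`ρ = κ⁺` under GCH): `κ × ρ` has `κ` rows and columns of any given order
type `ξ < κ⁺` in the colour `0`, or `κ` rows and columns of type `αᵢ` in a colour `i ≥ 1`, provided that
`μ ^ |αᵢ| < κ` for all `μ < κ`.  In particular, under `2 ^ ℵ₀ = ℵ₁` and `2 ^ ℵ₁ = ℵ₂`, for all `ξ < ω₃` and `α < ω₁`: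
`(ω₂, ω₃) → (ω₂, ω₂; ξ, α)`. -/
theorem result :
    (∀ κ : Cardinal.{0}, κ.IsRegular → ∀ (k : ℕ) (β : Fin (k + 1) → Ordinal.{0}), β 0 < (Order.succ κ).ord →
      (∀ i, i ≠ 0 → ∀ μ < κ, μ ^ (β i).card < κ) → Polarized κ (Order.succ (κ ^< κ)) β) ∧
    ((2 : Cardinal.{0}) ^ ℵ₀ = ℵ_ 1 → (2 : Cardinal.{0}) ^ ℵ_ 1 = ℵ_ 2 →
      ∀ ξ < (ℵ_ 3).ord, ∀ α < (ℵ_ 1).ord, Polarized (ℵ_ 2) (ℵ_ 3) ![ξ, α]) := by
  have hgen : ∀ κ : Cardinal.{0}, κ.IsRegular → ∀ (k : ℕ) (β : Fin (k + 1) → Ordinal.{0}), β 0 < (Order.succ κ).ord →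
      (∀ i, i ≠ 0 → ∀ μ < κ, μ ^ (β i).card < κ) → Polarized κ (Order.succ (κ ^< κ)) β :=
    fun κ hκ k β h0 hβ f => Pool.Agent.Lib.H44P.main κ hκ k β h0 hβ f
  refine ⟨hgen, fun h0 h1 ξ hξ α hα => ?_⟩
  have e1 : Order.succ (ℵ_ 1 : Cardinal.{0}) = ℵ_ 2 := by
    rw [succ_aleph]
    norm_num
  have e2 : Order.succ (ℵ_ 2 : Cardinal.{0}) = ℵ_ 3 := by
    rw [succ_aleph]
    norm_num
  have hreg : (ℵ_ 2 : Cardinal.{0}).IsRegular := by
    rw [← e1]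
    exact isRegular_succ (aleph0_le_aleph 1)
  have hpow : (ℵ_ 2 : Cardinal.{0}) ^< ℵ_ 2 = ℵ_ 2 := by
    rw [← e1, powerlt_succ (by rw [e1]; exact (aleph_pos 2).ne'), e1, ← h1, ← power_mul,
      mul_eq_self (aleph0_le_aleph 1)]
  have hc : (ℵ_ 1 : Cardinal.{0}) ^ ℵ₀ = ℵ_ 1 := by
    rw [← h0, ← power_mul, aleph0_mul_aleph0]
  have h := hgen (ℵ_ 2) hreg 1 ![ξ, α] (by rw [e2]; exact hξ) (by
    intro i hi μ hμ
    obtain rfl : i = 1 := by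
      have := i.isLt
      ext
      have h3 : (i : ℕ) ≠ 0 := fun h => hi (Fin.ext h)
      change (i : ℕ) = 1
      omega
    change μ ^ α.card < ℵ_ 2
    have hμ1 : μ ≤ ℵ_ 1 := Order.lt_succ_iff.1 (by rw [e1]; exact hμ)
    have hα0 : α.card ≤ ℵ₀ := by
      have h4 : α.card < ℵ_ 1 := lt_ord.1 hα
      rw [← Order.lt_succ_iff, succ_aleph0]
      exact h4
    calc μ ^ α.card ≤ ℵ_ 1 ^ α.card := power_le_power_right hμ1
      _ ≤ ℵ_ 1 ^ ℵ₀ := power_le_power_left (aleph_pos 1).ne' hα0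
      _ = ℵ_ 1 := hc
      _ < ℵ_ 2 := by rw [← e1]; exact Order.lt_succ _)
  rwa [hpow, e2] at h

end Pool.Agent.Results.MP_9ed2bb_lc.UnbalancedColumns
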